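import Pool.Agent.W443.DX.Stm4

set_option autoImplicit false

open MvPolynomial

namespace Pool.Agent.W135.DX

open Pool.Agent.W443.DX

theorem coeff_pd {K : Type} [Field K] (i : Fin 2) (F : MvPolynomial (Fin 2) K)
    (m : Fin 2 →₀ ℕ) :
    coeff m (pderiv i F) = coeff (m + Finsupp.single i 1) F * ((m i : K) + 1) := by
  classical
  induction F using MvPolynomial.induction_on' with
  | monomial s a =>
    rw [pderiv_monomial, coeff_monomial, coeff_monomial]
    by_cases h : s = m + Finsupp.single i 1
    · subst h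
      rw [if_pos rfl, if_pos (by simp)]
      simp
    · rw [if_neg h]
      by_cases h2 : s - Finsupp.single i 1 = m
      · rw [if_pos h2]
        by_cases h3 : s i = 0
        · rw [h3]; simp
        · exfalso
          apply h
          rw [← h2]
          ext j
          simp only [Finsupp.coe_add, Finsupp.coe_tsub, Pi.add_apply, Pi.sub_apply]
          by_cases hj : i = j
          · subst hj
            simp
            omega
          · simp [Finsupp.single_apply, hj]
      · rw [if_neg h2]; simp
  | add p q hp hq => rw [map_add, coeff_add, coeff_add, hp, hq]; ring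

theorem inj (h2 : S_LFT) (h3 : S_DER) (K : Type) [Field K] [CharZero K] (P Q : W K)
    (hPQ : P * Q - Q * P = 1) : ∀ (n : ℕ) (F : MvPolynomial (Fin 2) K),
    (∀ m : Fin 2 →₀ ℕ, n ≤ m 0 + m 1 → coeff m F = 0) → ev P Q F = 0 → F = 0 := by
  obtain ⟨φ, hφ⟩ := h2 K (W K) P Q hPQ
  intro n
  induction n with
  | zero =>
    intro F hF _
    ext m
    rw [hF m (Nat.zero_le _), coeff_zero]
  | succ n ih =>
    intro F hF h0
    have hz : φ (nf K F) = 0 := by rw [hφ, h0]
    have hd : ∀ i : Fin 2, ∀ m : Fin 2 →₀ ℕ, n ≤ m 0 + m 1 → coeff m (pderiv i F) = 0 := by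
      intro i m hm
      rw [coeff_pd, hF _ ?_, zero_mul]
      have hi : i = 0 ∨ i = 1 := by fin_cases i <;> simp
      rcases hi with rfl | rfl
      · simp; omega
      · simp; omega
    have e1 : nf K F * wx K - wx K * nf K F = - nf K (pderiv 1 F) := by
      rw [(h3 K F).1, wx_mul, ← map_sub, ← map_neg]
      congr 1
      ring
    have e0 : nf K F * wy K - wy K * nf K F = nf K (pderiv 0 F) := by
      rw [(h3 K F).2, wy_mul, ← map_sub]
      congr 1
      ring
    have z1 : ev P Q (pderiv 1 F) = 0 := by
      rw [← hφ, ← neg_neg (nf K (pderiv 1 F)), ← e1, map_neg, map_sub, map_mul, map_mul, hz]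
      simp
    have z0 : ev P Q (pderiv 0 F) = 0 := by
      rw [← hφ, ← e0, map_sub, map_mul, map_mul, hz]
      simp
    have p1 : pderiv 1 F = 0 := ih _ (hd 1) z1
    have p0 : pderiv 0 F = 0 := ih _ (hd 0) z0
    have hc : ∀ m : Fin 2 →₀ ℕ, m ≠ 0 → coeff m F = 0 := by
      intro m hm
      obtain ⟨i, hi⟩ : ∃ i, m i ≠ 0 := by
        by_contra hcon
        push Not at hcon
        apply hm
        ext i
        simp [hcon i]
      have hp : pderiv i F = 0 := by
        have hi : i = 0 ∨ i = 1 := by fin_cases i <;> simp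
        rcases hi with rfl | rfl
        · exact p0
        · exact p1
      have h4 := coeff_pd i F (m - Finsupp.single i 1)
      rw [hp, coeff_zero] at h4
      have h5 : m - Finsupp.single i 1 + Finsupp.single i 1 = m := by
        ext j
        simp only [Finsupp.coe_add, Finsupp.coe_tsub, Pi.add_apply, Pi.sub_apply]
        by_cases hj : i = j
        · subst hj
          simp
          omega
        · simp [Finsupp.single_apply, hj]
      rw [h5] at h4
      rcases mul_eq_zero.1 h4.symm with h6 | h6
      · exact h6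
      · exfalso
        exact (Nat.cast_add_one_ne_zero _) h6
    have hF0 : F = C (coeff 0 F) := by
      ext m
      rw [coeff_C]
      by_cases hm : m = 0
      · subst hm; simp
      · rw [if_neg (Ne.symm hm), hc m hm]
    have h7 : ev P Q F = coeff 0 F • (1 : W K) := by
      conv_lhs => rw [hF0]
      have := ev_monomial P Q (0 : Fin 2 →₀ ℕ) (coeff 0 F)
      rw [C_apply, this]
      simp
    have h8 : nf K (C (coeff 0 F)) = 0 := by
      have : (C (coeff 0 F) : MvPolynomial (Fin 2) K) = coeff 0 F • 1 := by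
        rw [smul_eq_C_mul, mul_one]
      rw [this, map_smul, nf_one, ← h7, h0]
    have h9 := (nf K).map_eq_zero_iff.1 h8
    rw [hF0, h9]

theorem inj' (h2 : S_LFT) (h3 : S_DER) (K : Type) [Field K] [CharZero K] (P Q : W K)
    (hPQ : P * Q - Q * P = 1) (F : MvPolynomial (Fin 2) K) (h : ev P Q F = 0) : F = 0 := by
  refine inj h2 h3 K P Q hPQ (F.totalDegree + 1) F ?_ h
  intro m hm
  by_contra hne
  have h4 := le_totalDegree (mem_support_iff.2 hne)
  rw [Finsupp.sum_fintype _ _ (by simp), Fin.sum_univ_two] at h4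
  omega

theorem two (_h1 : S_NZD) (h2 : S_LFT) (h3 : S_DER) : S_TWO := by
  intro K _ _ P Q hPQ hdep
  have hinj := inj' h2 h3 K P Q hPQ
  obtain ⟨u, hu⟩ : ∃ u : W K, ∀ w : W K, ∃ a b c : MvPolynomial (Fin 2) K, a ≠ 0 ∧
      ev P Q a * w = ev P Q b + ev P Q c * u := by
    by_cases hA : ∀ w : W K, ∃ a c : MvPolynomial (Fin 2) K, ¬ (a = 0 ∧ c = 0) ∧
        ev P Q a + ev P Q c * w = 0
    · refine ⟨1, fun w => ?_⟩
      obtain ⟨a, c, hne, h⟩ := hA w
      refine ⟨c, -a, 0, ?_, ?_⟩
      · intro hc
        apply hne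
        refine ⟨?_, hc⟩
        apply hinj
        rw [hc, map_zero, zero_mul, add_zero] at h
        exact h
      · rw [map_neg, map_zero, zero_mul, add_zero]
        exact (neg_eq_of_add_eq_zero_right h).symm
    · push Not at hA
      obtain ⟨u, hu⟩ := hA
      refine ⟨u, fun w => ?_⟩
      obtain ⟨a, b, c, hne, h⟩ := hdep 1 u w
      refine ⟨c, -a, -b, ?_, ?_⟩
      · intro hc
        rw [hc, map_zero, zero_mul, add_zero, mul_one] at h
        by_cases ha : a = 0
        · by_cases hb : b = 0
          · exact hne ⟨ha, hb, hc⟩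
          · exact hu a b (fun _ => hb) h
        · exact hu a b (fun h' => absurd h' ha) h
      · rw [map_neg, map_neg, neg_mul, ← neg_add]
        rw [mul_one] at h
        exact (neg_eq_of_add_eq_zero_right h).symm
  choose a b c ha h using hu
  refine ⟨u, ![a (wx K), a (wy K), a (u * wx K), a (u * wy K)],
    ![b (wx K), b (wy K), b (u * wx K), b (u * wy K)],
    ![c (wx K), c (wy K), c (u * wx K), c (u * wy K)], ?_, ?_⟩
  · intro t
    have ht : t = 0 ∨ t = 1 ∨ t = 2 ∨ t = 3 := by fin_cases t <;> simp
    rcases ht with rfl | rfl | rfl | rfl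
    · exact ha _
    · exact ha _
    · exact ha _
    · exact ha _
  · exact ⟨h _, h _, h _, h _⟩

end Pool.Agent.W135.DX
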